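import Pool.Agent.helper48.PR.SpecL

/-!
# Project pr (MP_a2a22c_al), part L, module LR1: rational form from an element of rank one
-/

set_option autoImplicit false

namespace Pool.Agent.PR

open Matrix

/-- A matrix of rank one is `e ⊗ φ`. -/
private theorem LR1_rank {n : ℕ} {F : Type} [Field F] (A : Matrix (Fin n) (Fin n) F)
    (h : A.rank = 1) : ∃ e φ : Fin n → F, e ≠ 0 ∧ φ ≠ 0 ∧ A = vecMulVec e φ := by
  unfold Matrix.rank at h
  obtain ⟨v, hv, hall⟩ := finrank_eq_one_iff'.mp h
  choose c hc using fun j : Fin n => hall ⟨A.mulVecLin (Pi.single j 1), ⟨_, rfl⟩⟩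
  have hA : A = vecMulVec (v : Fin n → F) c := by
    ext i j
    have h1 := congrArg (fun w : LinearMap.range A.mulVecLin => (w : Fin n → F) i) (hc j)
    simp only [Submodule.coe_smul, Pi.smul_apply, Matrix.mulVecLin_apply, Matrix.mulVec_single_one,
      Matrix.col_apply, smul_eq_mul] at h1
    rw [vecMulVec_apply, ← h1, mul_comm]
  refine ⟨(v : Fin n → F), c, ?_, ?_, hA⟩
  · intro h0
    exact hv (Subtype.ext h0)
  · intro h0
    have h1 : A = 0 := by rw [hA, h0, vecMulVec_zero]
    have h2 : Module.finrank F (LinearMap.range A.mulVecLin) = 0 := by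
      rw [h1]
      exact Matrix.rank_zero
    rw [h2] at h
    exact zero_ne_one h

/-- A spanning family of vectors contains a basis. -/
private theorem LR1_basis {n : ℕ} {F : Type} [Field F] {Λ : Type} (v : Λ → Fin n → F)
    (h : Submodule.span F (Set.range v) = ⊤) : ∃ l : Fin n → Λ, LinearIndependent F fun i => v (l i) := by
  obtain ⟨f, hf1, -, hf3⟩ := Submodule.exists_fun_fin_finrank_span_eq F (Set.range v)
  have hn : Module.finrank F (Submodule.span F (Set.range v)) = n := by
    rw [h, finrank_top, Module.finrank_fin_fun]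
  choose g hg using hf1
  refine ⟨fun i => g (Fin.cast hn.symm i), ?_⟩
  have h1 : (fun i => v (g (Fin.cast hn.symm i))) = f ∘ Fin.cast hn.symm := by
    ext i
    rw [hg]
    rfl
  rw [h1]
  exact hf3.comp _ (Fin.cast_injective _)

/-- The orbit of a nonzero vector spans. -/
private theorem LR1_spanL {n : ℕ} {F : Type} [Field F] {Λ : Type}
    (ρ : Λ → Matrix (Fin n) (Fin n) F) (h : Submodule.span F (Set.range ρ) = ⊤) (e : Fin n → F)
    (he : e ≠ 0) : Submodule.span F (Set.range fun l => ρ l *ᵥ e) = ⊤ := by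
  let T : Matrix (Fin n) (Fin n) F →ₗ[F] (Fin n → F) :=
    { toFun := fun B => B *ᵥ e
      map_add' := fun B C => add_mulVec B C e
      map_smul' := fun c B => smul_mulVec c B e }
  have h1 : (Set.range fun l => ρ l *ᵥ e) = T '' Set.range ρ := by
    rw [← Set.range_comp]
    rfl
  rw [h1, Submodule.span_image, h, eq_top_iff]
  rintro w -
  obtain ⟨i, hi⟩ := Function.ne_iff.mp he
  refine ⟨vecMulVec w (Pi.single i (e i)⁻¹), Submodule.mem_top, ?_⟩
  change vecMulVec w (Pi.single i (e i)⁻¹) *ᵥ e = w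
  ext a
  rw [vecMulVec_mulVec]
  simp only [single_dotProduct]
  rw [inv_mul_cancel₀ hi]
  simp

private theorem LR1_spanR {n : ℕ} {F : Type} [Field F] {Λ : Type}
    (ρ : Λ → Matrix (Fin n) (Fin n) F) (h : Submodule.span F (Set.range ρ) = ⊤) (φ : Fin n → F)
    (hφ : φ ≠ 0) : Submodule.span F (Set.range fun l => φ ᵥ* ρ l) = ⊤ := by
  let T : Matrix (Fin n) (Fin n) F →ₗ[F] (Fin n → F) :=
    { toFun := fun B => φ ᵥ* B
      map_add' := fun B C => vecMul_add B C φ
      map_smul' := fun c B => by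
        ext a
        simp [vecMul, Matrix.smul_apply]
        simp [dotProduct, Finset.mul_sum, mul_left_comm] }
  have h1 : (Set.range fun l => φ ᵥ* ρ l) = T '' Set.range ρ := by
    rw [← Set.range_comp]
    rfl
  rw [h1, Submodule.span_image, h, eq_top_iff]
  rintro w -
  obtain ⟨i, hi⟩ := Function.ne_iff.mp hφ
  refine ⟨vecMulVec (Pi.single i (φ i)⁻¹) w, Submodule.mem_top, ?_⟩
  change φ ᵥ* vecMulVec (Pi.single i (φ i)⁻¹) w = w
  rw [vecMul_vecMulVec, dotProduct_single, mul_inv_cancel₀ hi, one_smul]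

theorem LR1 : LR1_stmt := by
  intro n k F _ _ _ Λ _ ρ hspan htr A hA hrank
  have hinj : Function.Injective (algebraMap k F) := (algebraMap k F).injective
  -- traces of elements of the span
  have hτ0 : ∀ l : Λ, ∃ t : k, (A * ρ l).trace = algebraMap k F t := by
    intro l
    clear hrank
    induction hA using Submodule.span_induction with
    | mem x hx =>
      obtain ⟨l', rfl⟩ := hx
      rw [← map_mul]
      exact htr _
    | zero => exact ⟨0, by rw [zero_mul, trace_zero, map_zero]⟩
    | add x y _ _ hx hy =>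
      obtain ⟨s, hs⟩ := hx
      obtain ⟨t, ht⟩ := hy
      exact ⟨s + t, by rw [add_mul, trace_add, hs, ht, map_add]⟩
    | smul c x _ hx =>
      obtain ⟨s, hs⟩ := hx
      exact ⟨c * s, by rw [smul_mul_assoc, trace_smul, hs, Algebra.smul_def, map_mul]⟩
  obtain ⟨e, φ, he, hφ, rfl⟩ := LR1_rank A hrank
  have hτ : ∀ l : Λ, ∃ t : k, φ ⬝ᵥ (ρ l *ᵥ e) = algebraMap k F t := by
    intro l
    obtain ⟨t, ht⟩ := hτ0 l
    refine ⟨t, ?_⟩
    rw [← ht, vecMulVec_mul, trace_vecMulVec, dotProduct_mulVec, dotProduct_comm]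
  choose τ hτ' using hτ
  obtain ⟨L, hL⟩ := LR1_basis _ (LR1_spanL ρ hspan e he)
  obtain ⟨M, hM⟩ := LR1_basis _ (LR1_spanR ρ hspan φ hφ)
  let x : Matrix (Fin n) (Fin n) F := Matrix.of fun a i => (ρ (L i) *ᵥ e) a
  let y₀ : Matrix (Fin n) (Fin n) F := Matrix.of fun j a => (φ ᵥ* ρ (M j)) a
  have hx : IsUnit x := by
    rw [← linearIndependent_cols_iff_isUnit]
    exact hL
  have hy₀ : IsUnit y₀ := by
    rw [← linearIndependent_rows_iff_isUnit]
    exact hM
  obtain ⟨x', hxx'⟩ := hx.exists_right_inv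
  have hx'x : x' * x = 1 := mul_eq_one_comm.mp hxx'
  obtain ⟨z, hyz⟩ := hy₀.exists_right_inv
  have hzy : z * y₀ = 1 := mul_eq_one_comm.mp hyz
  let N : Λ → Matrix (Fin n) (Fin n) k := fun l => Matrix.of fun j i => τ (M j * l * L i)
  have hN : ∀ l, y₀ * ρ l * x = (N l).map (algebraMap k F) := by
    intro l
    ext j i
    rw [Matrix.map_apply]
    change _ = algebraMap k F (τ (M j * l * L i))
    rw [← hτ', map_mul, map_mul, ← mulVec_mulVec, dotProduct_mulVec, ← vecMul_vecMul]
    rfl
  have hmapinj : ∀ B C : Matrix (Fin n) (Fin n) k, B.map (algebraMap k F) = C.map (algebraMap k F) →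
      B = C := by
    intro B C h
    ext i j
    have := congrFun (congrFun h i) j
    exact hinj this
  have hN1 : IsUnit (N 1) := by
    rw [Matrix.isUnit_iff_isUnit_det, isUnit_iff_ne_zero]
    intro h0
    have h1 : ((N 1).map (algebraMap k F)).det = 0 := by
      rw [← RingHom.mapMatrix_apply, ← RingHom.map_det, h0, map_zero]
    rw [← hN, map_one, mul_one, Matrix.det_mul] at h1
    have h2 : y₀.det ≠ 0 := by
      have := (Matrix.isUnit_iff_isUnit_det y₀).mp hy₀
      exact this.ne_zero
    have h3 : x.det ≠ 0 := by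
      have := (Matrix.isUnit_iff_isUnit_det x).mp hx
      exact this.ne_zero
    exact mul_ne_zero h2 h3 h1
  obtain ⟨G, hG⟩ := hN1.exists_right_inv
  have hG' : G * N 1 = 1 := mul_eq_one_comm.mp hG
  have hGmap : G.map (algebraMap k F) = x' * z := by
    have h1 : (N 1).map (algebraMap k F) * (x' * z) = 1 := by
      rw [← hN, map_one, mul_one]
      calc y₀ * x * (x' * z) = y₀ * (x * x') * z := by noncomm_ring
        _ = 1 := by rw [hxx', mul_one, hyz]
    have h2 : G.map (algebraMap k F) * (N 1).map (algebraMap k F) = 1 := by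
      rw [← Matrix.map_mul, hG', Matrix.map_one _ (map_zero _) (map_one _)]
    exact left_inv_eq_right_inv h2 h1
  have hr : ∀ l, (G * N l).map (algebraMap k F) = x' * ρ l * x := by
    intro l
    rw [Matrix.map_mul, hGmap, ← hN]
    calc x' * z * (y₀ * ρ l * x) = x' * (z * y₀) * ρ l * x := by noncomm_ring
      _ = x' * ρ l * x := by rw [hzy, mul_one]
  let r : Λ →* Matrix (Fin n) (Fin n) k :=
    { toFun := fun l => G * N l
      map_one' := hG'
      map_mul' := fun a b => by
        apply hmapinj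
        have e1 : (G * N a * (G * N b)).map (algebraMap k F) =
            (G * N a).map (algebraMap k F) * (G * N b).map (algebraMap k F) := Matrix.map_mul
        rw [e1, hr, hr, hr, map_mul]
        calc x' * (ρ a * ρ b) * x = x' * ρ a * 1 * ρ b * x := by noncomm_ring
          _ = x' * ρ a * x * (x' * ρ b * x) := by rw [← hxx']; noncomm_ring }
  refine ⟨x, x', r, hxx', hx'x, fun l => ?_⟩
  change ρ l = x * (G * N l).map (algebraMap k F) * x'
  rw [hr]
  calc ρ l = 1 * ρ l * 1 := by rw [one_mul, mul_one]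
    _ = x * (x' * ρ l * x) * x' := by rw [← hxx']; noncomm_ring

end Pool.Agent.PR
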