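import Pool.Agent.helper48.PR.SpecH

/-!
# Project pr (MP_a2a22c_al), part H, module HS

Finite index subgroups of `SL(k, ℤ)` contain large Heisenberg groups.
-/

set_option autoImplicit false

namespace Pool.Agent.PR

open Matrix

theorem HS : HS_stmt := by
  intro k hk Δ hΔ
  set N := Δ.normalCore with hN
  have hNfin : N.FiniteIndex := inferInstance
  have hNle : N ≤ Δ := Subgroup.normalCore_le Δ
  set q := N.index with hq
  have hq0 : q ≠ 0 := hNfin.index_ne_zero
  have hmem : ∀ (i j : Fin k) (h : i ≠ j) (c : ℤ), el i j h (c * q) ∈ Δ := by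
    intro i j h c
    have h1 : el i j h c ^ q ∈ N := Subgroup.pow_index_mem N _
    rw [el_pow, mul_comm] at h1
    exact hNle h1
  let o : Fin k := ⟨0, by omega⟩
  let e : Fin k := ⟨k - 1, by omega⟩
  let s : Fin (k - 2) → Fin k := fun i => ⟨i.1 + 1, by have := i.2; omega⟩
  have hos : ∀ i, o ≠ s i := by
    intro i h
    have := congrArg Fin.val h
    change 0 = i.1 + 1 at this
    omega
  have hse : ∀ i, s i ≠ e := by
    intro i h
    have := congrArg Fin.val h
    change i.1 + 1 = k - 1 at this
    have := i.2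
    omega
  have hoe : o ≠ e := by
    intro h
    have := congrArg Fin.val h
    change 0 = k - 1 at this
    omega
  have hss : ∀ i j, i ≠ j → s i ≠ s j := by
    intro i j hij h
    have := congrArg Fin.val h
    change i.1 + 1 = j.1 + 1 at this
    apply hij
    apply Fin.ext
    omega
  have hm1 : ∀ (i j : Fin k) (h : i ≠ j), el i j h (q : ℤ) ∈ Δ := by
    intro i j h
    have := hmem i j h 1
    rwa [one_mul] at this
  refine ⟨fun i => ⟨el o (s i) (hos i) q, hm1 _ _ _⟩, fun i => ⟨el (s i) e (hse i) q, hm1 _ _ _⟩,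
    ⟨el o e hoe ((q : ℤ) * q), hmem _ _ _ _⟩, ?_, ?_⟩
  · refine ⟨?_, ?_, ?_, ?_, ?_, ?_⟩
    · intro i
      apply Subtype.ext
      exact el_comm (hos i) hoe (hos i).symm hoe _ _
    · intro i
      apply Subtype.ext
      exact el_comm (hse i) hoe hoe.symm (hse i) _ _
    · intro i j
      apply Subtype.ext
      exact el_comm (hos i) (hos j) (hos i).symm (hos j) _ _
    · intro i j
      apply Subtype.ext
      exact el_comm (hse i) (hse j) (hse j).symm (hse i) _ _
    · intro i j hij
      apply Subtype.ext
      exact el_comm (hos i) (hse j) (hss i j hij) hoe _ _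
    · intro i
      apply Subtype.ext
      change el o (s i) (hos i) (q : ℤ) * el (s i) e (hse i) (q : ℤ) =
        el o e hoe ((q : ℤ) * q) * (el (s i) e (hse i) (q : ℤ) * el o (s i) (hos i) (q : ℤ))
      rw [el_commutator (hos i) (hse i) hoe, mul_assoc]
  · intro j hj h
    have h1 : el o e hoe ((q : ℤ) * q) ^ j = 1 := by
      have := congrArg Subtype.val h
      exact this
    rw [el_pow] at h1
    have h2 := congrArg (fun g : SLZ k => (g : Matrix (Fin k) (Fin k) ℤ) o e) h1
    simp only [el_coe, Matrix.add_apply, Matrix.one_apply_ne hoe, Matrix.single_apply_same,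
      Matrix.SpecialLinearGroup.coe_one, zero_add] at h2
    have h3 : ((j : ℤ) * ((q : ℤ) * q)) ≠ 0 := by positivity
    exact h3 h2

end Pool.Agent.PR
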