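import Pool.Agent.helper48.PR.SpecC

/-!
# Project pr (MP_a2a22c_al), part C, module C3: group commutator to Lie bracket
-/

set_option autoImplicit false

namespace Pool.Agent.PR

open Matrix

section

variable {R : Type} [Ring R] [Algebra ℚ R]

omit [Algebra ℚ R] in
private theorem C3_conj_pow {U V : R} (hVU : V * U = 1) (B : R) (k : ℕ) (hUV : U * V = 1) :
    (U * B * V) ^ k = U * B ^ k * V := by
  induction k with
  | zero => rw [pow_zero, pow_zero, mul_one, hUV]
  | succ k ih =>
    rw [pow_succ, ih, pow_succ]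
    calc U * B ^ k * V * (U * B * V) = U * B ^ k * (V * U) * B * V := by noncomm_ring
      _ = U * (B ^ k * B) * V := by rw [hVU]; noncomm_ring

private theorem C3_conj_exp {U V B : R} (hUV : U * V = 1) (hVU : V * U = 1) (hB : IsNilpotent B) :
    IsNilpotent (U * B * V) ∧ IsNilpotent.exp (U * B * V) = U * IsNilpotent.exp B * V := by
  obtain ⟨k, hk⟩ := hB
  have h1 : (U * B * V) ^ k = 0 := by rw [C3_conj_pow hVU B k hUV, hk, mul_zero, zero_mul]
  refine ⟨⟨k, h1⟩, ?_⟩
  rw [IsNilpotent.exp_eq_sum h1, IsNilpotent.exp_eq_sum hk, Finset.mul_sum, Finset.sum_mul]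
  refine Finset.sum_congr rfl fun i _ => ?_
  rw [C3_conj_pow hVU B i hUV, mul_smul_comm, smul_mul_assoc]

private theorem C3_expL {A : R} (hA : IsNilpotent A) (X : R) :
    IsNilpotent (LinearMap.mulLeft ℚ A) ∧
      (IsNilpotent.exp (LinearMap.mulLeft ℚ A) : Module.End ℚ R) X = IsNilpotent.exp A * X := by
  obtain ⟨k, hk⟩ := hA
  have h1 : (LinearMap.mulLeft ℚ A) ^ k = 0 := by
    rw [LinearMap.pow_mulLeft, hk, LinearMap.mulLeft_zero_eq_zero]
  refine ⟨⟨k, h1⟩, ?_⟩
  rw [IsNilpotent.exp_eq_sum h1, IsNilpotent.exp_eq_sum hk, LinearMap.sum_apply, Finset.sum_mul]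
  refine Finset.sum_congr rfl fun i _ => ?_
  rw [LinearMap.smul_apply, LinearMap.pow_mulLeft, LinearMap.mulLeft_apply, smul_mul_assoc]

private theorem C3_expR {A : R} (hA : IsNilpotent A) (X : R) :
    IsNilpotent (LinearMap.mulRight ℚ A) ∧
      (IsNilpotent.exp (LinearMap.mulRight ℚ A) : Module.End ℚ R) X = X * IsNilpotent.exp A := by
  obtain ⟨k, hk⟩ := hA
  have h1 : (LinearMap.mulRight ℚ A) ^ k = 0 := by
    rw [LinearMap.pow_mulRight, hk, LinearMap.mulRight_zero_eq_zero]
  refine ⟨⟨k, h1⟩, ?_⟩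
  rw [IsNilpotent.exp_eq_sum h1, IsNilpotent.exp_eq_sum hk, LinearMap.sum_apply, Finset.mul_sum]
  refine Finset.sum_congr rfl fun i _ => ?_
  rw [LinearMap.smul_apply, LinearMap.pow_mulRight, LinearMap.mulRight_apply, mul_smul_comm]

/-- If `exp D b = b + c` with `D` nilpotent and `D c = 0`, then `D b = c`. -/
private theorem C3_nil (D : Module.End ℚ R) (hD : IsNilpotent D) (b c : R)
    (h : (IsNilpotent.exp D) b = b + c) (hc : D c = 0) : D b = c := by
  have hcomm : ∀ j : ℕ, IsNilpotent.exp D * D ^ j = D ^ j * IsNilpotent.exp D := by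
    intro j
    obtain ⟨k, hk⟩ := hD
    rw [IsNilpotent.exp_eq_sum hk, Finset.mul_sum, Finset.sum_mul]
    refine Finset.sum_congr rfl fun i _ => ?_
    rw [smul_mul_assoc, mul_smul_comm, ← pow_add, ← pow_add, add_comm]
  have htwo : ∀ m : R, (D ^ 2) m = 0 → (IsNilpotent.exp D) m = m + D m := by
    intro m hm
    have h1 := IsNilpotent.exp_smul_eq_sum (a := D) (m := m) (k := 2) hm hD
    rw [Finset.sum_range_succ, Finset.sum_range_one] at h1
    simpa using h1
  have hcj : ∀ j : ℕ, (D ^ (j + 1)) c = 0 := by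
    intro j
    rw [pow_succ, Module.End.mul_apply, hc, map_zero]
  have hind : ∀ j : ℕ, (D ^ (j + 2)) b = 0 → (D ^ 2) b = 0 := by
    intro j
    induction j with
    | zero => exact fun h => h
    | succ j ih =>
      intro hj
      refine ih ?_
      have h1 : (IsNilpotent.exp D) ((D ^ (j + 1)) b) = (D ^ (j + 1)) b + D ((D ^ (j + 1)) b) := by
        refine htwo _ ?_
        rw [← Module.End.mul_apply, ← pow_add]
        have e : 2 + (j + 1) = j + 1 + 2 := by omega
        rw [e]
        exact hj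
      have h2 : (IsNilpotent.exp D) ((D ^ (j + 1)) b) = (D ^ (j + 1)) b := by
        rw [← Module.End.mul_apply, hcomm, Module.End.mul_apply, h, map_add, hcj, add_zero]
      rw [h2] at h1
      have h3 : D ((D ^ (j + 1)) b) = 0 := by
        have := h1.symm
        rwa [add_eq_left] at this
      rw [← Module.End.mul_apply, ← pow_succ'] at h3
      exact h3
  have hD2 : (D ^ 2) b = 0 := by
    obtain ⟨k, hk⟩ := hD
    refine hind k ?_
    rw [pow_add, Module.End.mul_apply, hk]
    rfl
  have h1 := htwo b hD2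
  rw [h] at h1
  exact (add_left_cancel h1).symm

end

theorem C3 (hC2 : C2_stmt) : C3_stmt := by
  intro n F _ _ A B C hA hB hC hCA hCB h
  obtain ⟨lg, -, hlg⟩ := hC2 n F
  have hUV := IsNilpotent.exp_mul_exp_neg_self hA
  have hVU := IsNilpotent.exp_neg_mul_exp_self hA
  obtain ⟨hn1, he1⟩ := C3_conj_exp hUV hVU hB
  have hcomm : Commute C B := hCB
  have hn2 : IsNilpotent (C + B) := hcomm.isNilpotent_add hC hB
  have h1 : IsNilpotent.exp A * B * IsNilpotent.exp (-A) = C + B := by
    rw [← hlg _ hn1, he1, h, mul_assoc, hUV, mul_one,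
      ← IsNilpotent.exp_add_of_commute hcomm hC hB, hlg _ hn2]
  -- the derivation
  have hnA : IsNilpotent (-A) := hA.neg
  have hL := fun X => C3_expL hA X
  have hR := fun X => C3_expR hnA X
  have hLR : Commute (LinearMap.mulLeft ℚ A) (LinearMap.mulRight ℚ (-A)) :=
    by
    apply LinearMap.commute_mulLeft_right
  have hDn : IsNilpotent (LinearMap.mulLeft ℚ A + LinearMap.mulRight ℚ (-A)) :=
    hLR.isNilpotent_add (hL 0).1 (hR 0).1
  have hDexp : (IsNilpotent.exp (LinearMap.mulLeft ℚ A + LinearMap.mulRight ℚ (-A)) :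
      Module.End ℚ (Matrix (Fin n) (Fin n) F)) B = B + C := by
    rw [IsNilpotent.exp_add_of_commute hLR (hL 0).1 (hR 0).1, Module.End.mul_apply, (hR B).2,
      (hL _).2, ← mul_assoc, h1, add_comm]
  have hDC : (LinearMap.mulLeft ℚ A + LinearMap.mulRight ℚ (-A) :
      Module.End ℚ (Matrix (Fin n) (Fin n) F)) C = 0 := by
    rw [LinearMap.add_apply, LinearMap.mulLeft_apply, LinearMap.mulRight_apply, mul_neg, hCA,
      add_neg_cancel]
  have h2 := C3_nil _ hDn B C hDexp hDC
  rw [LinearMap.add_apply, LinearMap.mulLeft_apply, LinearMap.mulRight_apply, mul_neg] at h2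
  rw [← h2, sub_eq_add_neg]

end Pool.Agent.PR
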