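import Pool.Agent.helper48.PR.SpecC

/-!
# Project pr (MP_a2a22c_al), part C, module C4d: signed permutations
-/

set_option autoImplicit false

namespace Pool.Agent.PR

open Matrix

section

variable {R : Type} [Ring R] [Algebra ℚ R]

omit [Algebra ℚ R] in
private theorem C4d_conj_pow {U V : R} (hVU : V * U = 1) (B : R) (k : ℕ) (hUV : U * V = 1) :
    (U * B * V) ^ k = U * B ^ k * V := by
  induction k with
  | zero => rw [pow_zero, pow_zero, mul_one, hUV]
  | succ k ih =>
    rw [pow_succ, ih, pow_succ]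
    calc U * B ^ k * V * (U * B * V) = U * B ^ k * (V * U) * B * V := by noncomm_ring
      _ = U * (B ^ k * B) * V := by rw [hVU]; noncomm_ring

private theorem C4d_conj_exp {U V B : R} (hUV : U * V = 1) (hVU : V * U = 1)
    (hB : IsNilpotent B) :
    IsNilpotent (U * B * V) ∧ IsNilpotent.exp (U * B * V) = U * IsNilpotent.exp B * V := by
  obtain ⟨k, hk⟩ := hB
  have h1 : (U * B * V) ^ k = 0 := by rw [C4d_conj_pow hVU B k hUV, hk, mul_zero, zero_mul]
  refine ⟨⟨k, h1⟩, ?_⟩
  rw [IsNilpotent.exp_eq_sum h1, IsNilpotent.exp_eq_sum hk, Finset.mul_sum, Finset.sum_mul]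
  refine Finset.sum_congr rfl fun i _ => ?_
  rw [C4d_conj_pow hVU B i hUV, mul_smul_comm, smul_mul_assoc]

end

private theorem C4d_el {n : ℕ} (w : SLZ n) (σ : Equiv.Perm (Fin n)) (s : Fin n → ℤ)
    (h : IsSP w σ s) (i j : Fin n) (hij : i ≠ j) (hσ : σ i ≠ σ j) (a : ℤ) :
    w * el i j hij a = el (σ i) (σ j) hσ (s i * s j * a) * w := by
  apply Subtype.ext
  rw [Matrix.SpecialLinearGroup.coe_mul, Matrix.SpecialLinearGroup.coe_mul, el_coe, el_coe,
    mul_add, add_mul, mul_one, one_mul]
  congr 1
  have hs : s j * s j = 1 := by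
    rcases h.1 j with h1 | h1 <;> rw [h1] <;> norm_num
  ext p q
  by_cases hq : q = j
  · rw [hq, Matrix.mul_single_apply_same, h.2]
    by_cases hp : p = σ i
    · rw [hp, Matrix.single_mul_apply_same, h.2, if_pos rfl, if_pos rfl]
      calc s i * a = s i * (s j * s j) * a := by rw [hs, mul_one]
        _ = s i * s j * a * s j := by ring
    · rw [if_neg hp, Matrix.single_mul_apply_of_ne _ _ _ _ _ hp, zero_mul]
  · rw [Matrix.mul_single_apply_of_ne _ _ _ _ _ hq]
    by_cases hp : p = σ i
    · rw [hp, Matrix.single_mul_apply_same, h.2, if_neg, mul_zero]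
      intro h1
      exact hq (σ.injective h1).symm
    · rw [Matrix.single_mul_apply_of_ne _ _ _ _ _ hp]

theorem C4d (hC2 : C2_stmt) : C4d_stmt := by
  refine ⟨?_, ?_⟩
  · intro n hn F _ _ r M hM hr w σ s hw i j hij
    obtain ⟨lg, -, hlg⟩ := hC2 n F
    have hσ : σ i ≠ σ j := fun h => hij (σ.injective h)
    have hK : (n.factorial : F) ≠ 0 := Nat.cast_ne_zero.mpr n.factorial_ne_zero
    have hWW : r w * r w⁻¹ = 1 := by rw [← map_mul, mul_inv_cancel, map_one]
    have hWW' : r w⁻¹ * r w = 1 := by rw [← map_mul, inv_mul_cancel, map_one]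
    obtain ⟨hnil, hexp⟩ := hr i j hij
    obtain ⟨hnil', hexp'⟩ := hr (σ i) (σ j) hσ
    have hε : s i * s j = 1 ∨ s i * s j = -1 := by
      rcases hw.1 i with h1 | h1 <;> rcases hw.1 j with h2 | h2 <;> rw [h1, h2] <;> norm_num
    have hn1 : IsNilpotent ((n.factorial : F) • M i j) := hnil.smul _
    have hn2 : IsNilpotent ((n.factorial : F) • M (σ i) (σ j)) := hnil'.smul _
    obtain ⟨hc1, hc2⟩ := C4d_conj_exp hWW hWW' hn1
    -- the image of the conjugate
    have h1 : r w * r (el i j hij (n.factorial : ℤ)) * r w⁻¹ =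
        r (el (σ i) (σ j) hσ (s i * s j * (n.factorial : ℤ))) := by
      rw [← map_mul, C4d_el w σ s hw i j hij hσ, map_mul, mul_assoc, hWW, mul_one]
    have h2 : r (el (σ i) (σ j) hσ (s i * s j * (n.factorial : ℤ))) =
        IsNilpotent.exp (((s i * s j : ℤ) : F) • ((n.factorial : F) • M (σ i) (σ j))) := by
      rcases hε with h | h
      · rw [h, one_mul, hexp', Int.cast_one, one_smul]
      · rw [h, neg_one_mul, el_neg, Int.cast_neg, Int.cast_one, neg_smul, one_smul]
        have e1 : r (el (σ i) (σ j) hσ (n.factorial : ℤ))⁻¹ *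
            r (el (σ i) (σ j) hσ (n.factorial : ℤ)) = 1 := by
          rw [← map_mul, inv_mul_cancel, map_one]
        rw [hexp'] at e1
        have e2 := IsNilpotent.exp_mul_exp_neg_self hn2
        exact left_inv_eq_right_inv e1 e2
    have hn3 : IsNilpotent (((s i * s j : ℤ) : F) • ((n.factorial : F) • M (σ i) (σ j))) :=
      hn2.smul _
    have h3 : r w * ((n.factorial : F) • M i j) * r w⁻¹ =
        ((s i * s j : ℤ) : F) • ((n.factorial : F) • M (σ i) (σ j)) := by
      rw [← hlg _ hc1, hc2, ← hexp, h1, h2, hlg _ hn3]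
    have h4 : r w * ((n.factorial : F) • M i j) =
        (((s i * s j : ℤ) : F) • ((n.factorial : F) • M (σ i) (σ j))) * r w := by
      rw [← h3, mul_assoc _ _ (r w), hWW', mul_one]
    have h5 : (n.factorial : F) • (r w * M i j) =
        (n.factorial : F) • (((s i * s j : ℤ) : F) • (M (σ i) (σ j) * r w)) := by
      rw [← mul_smul_comm, h4, smul_comm, smul_mul_assoc, smul_mul_assoc]
    exact smul_right_injective _ hK h5
  · intro n hn σ
    classical
    let z : Fin n := ⟨0, by omega⟩
    let s : Fin n → ℤ := fun j => if j = z then ((Equiv.Perm.sign σ : ℤˣ) : ℤ) else 1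
    have hs : ∀ i, s i = 1 ∨ s i = -1 := by
      intro i
      by_cases hi : i = z
      · have : s i = ((Equiv.Perm.sign σ : ℤˣ) : ℤ) := if_pos hi
        rw [this]
        rcases Int.units_eq_one_or (Equiv.Perm.sign σ) with h | h
        · left; rw [h]; rfl
        · right; rw [h]; rfl
      · exact Or.inl (if_neg hi)
    let P : Matrix (Fin n) (Fin n) ℤ := Matrix.of fun a j => if a = σ j then s j else 0
    have hP : P = (σ⁻¹ : Equiv.Perm (Fin n)).permMatrix ℤ * Matrix.diagonal s := by
      ext a j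
      rw [Matrix.mul_diagonal]
      change (if a = σ j then s j else 0) = _
      rw [Equiv.Perm.permMatrix, PEquiv.toMatrix_apply]
      by_cases h : a = σ j
      · rw [if_pos h, if_pos, one_mul]
        rw [h]
        simp
      · rw [if_neg h, if_neg, zero_mul]
        intro h1
        apply h
        simp only [Equiv.toPEquiv_apply, Option.mem_def, Option.some.injEq] at h1
        rw [← h1]
        simp
    have hdet : P.det = 1 := by
      rw [hP, Matrix.det_mul, Matrix.det_permutation, Matrix.det_diagonal]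
      have h1 : ∏ i, s i = ((Equiv.Perm.sign σ : ℤˣ) : ℤ) := by
        rw [Finset.prod_eq_single z]
        · exact if_pos rfl
        · intro b _ hb
          exact if_neg hb
        · intro h
          exact absurd (Finset.mem_univ z) h
      rw [h1, Equiv.Perm.sign_inv]
      rcases Int.units_eq_one_or (Equiv.Perm.sign σ) with h | h <;> rw [h] <;> simp
    exact ⟨⟨P, hdet⟩, s, hs, fun a j => rfl⟩

end Pool.Agent.PR
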