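import Pool.Agent.helper5.PR.SpecM
import Pool.Agent.helper48.SLn.Basis

/-!
# Project pr: (MP_a2a22c_al), part M, module M-NQ

A normal subgroup of `SL(n, ℤ)` containing all `1 + m E_ij` contains all `1 + m x ⊗ φ`.
-/

namespace Pool.Agent.PR

open Matrix Pool.Agent.H48SL

theorem M_NQ : M_NQ_stmt := by
  intro n hn m N hN
  obtain ⟨hnorm, hel⟩ := hN
  unfold NQ
  rw [Subgroup.closure_le]
  rintro g ⟨x, φ, hφ, rfl⟩
  change tv x (m • φ) ∈ N
  by_cases hx : x = 0
  · rw [hx, tv_zero_left]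
    exact N.one_mem
  obtain ⟨k, x0, u, hk, rfl, hu⟩ := primitive_part x hx
  have hφ0 : φ ⬝ᵥ x0 = 0 := by
    rw [dotProduct_smul, smul_eq_mul] at hφ
    rcases mul_eq_zero.mp hφ with h | h
    · exact absurd h hk
    · exact h
  have hmφ : (m • φ) ⬝ᵥ x0 = 0 := by rw [smul_dotProduct, hφ0, smul_zero]
  rw [tv_smul_comm hmφ]
  refine tv_smul_mem hmφ ?_ k
  -- conjugate the primitive vector to a basis vector
  have hprim : ∀ d : ℤ, (∀ i ∈ (Finset.univ : Finset (Fin n)), d ∣ x0 i) → IsUnit d := by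
    intro d hd
    have h1 : d ∣ u ⬝ᵥ x0 := Finset.dvd_sum fun i _ => Dvd.dvd.mul_left (hd i (Finset.mem_univ i)) _
    rw [hu] at h1
    exact isUnit_of_dvd_one h1
  have hcard : 2 ≤ (Finset.univ : Finset (Fin n)).card := by
    rw [Finset.card_univ, Fintype.card_fin]
    omega
  let z : Fin n := ⟨0, by omega⟩
  obtain ⟨a, -, ha⟩ := euclid (Finset.univ : Finset (Fin n)) z (Finset.mem_univ z) hcard _ x0 rfl
    hprim
  have ha' : (a : Matrix (Fin n) (Fin n) ℤ) *ᵥ x0 = Pi.single z 1 := by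
    ext i
    rw [ha i (Finset.mem_univ i), Pi.single_apply]
  have hconj := tv_conj hmφ a
  rw [ha', smul_vecMul] at hconj
  set ψ : Fin n → ℤ := φ ᵥ* ((a⁻¹ : SpecialLinearGroup (Fin n) ℤ) : Matrix (Fin n) (Fin n) ℤ)
    with hψ
  have hψ0 : ψ z = 0 := by
    have h1 := vecMul_inv_dot a φ x0
    rw [ha', hφ0, ← hψ, dotProduct_single_one] at h1
    exact h1
  have hmem : tv (Pi.single z 1) (m • ψ) ∈ N := by
    refine tv_right_mem _ _ (fun i => ?_) N (fun i => ?_)
    · by_cases hi : i = z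
      · rw [hi, Pi.smul_apply, hψ0, smul_zero, zero_mul]
      · rw [Pi.single_eq_of_ne hi, mul_zero]
    · by_cases hi : i = z
      · rw [hi, Pi.smul_apply, hψ0, smul_zero, Pi.single_zero, tv_zero_right]
        exact N.one_mem
      · have hzi : z ≠ i := fun h => hi h.symm
        have h2 : (Pi.single i ((m • ψ) i) : Fin n → ℤ) = ψ i • Pi.single i m := by
          rw [← Pi.single_smul]
          congr 1
          simp [mul_comm]
        rw [h2]
        refine tv_smul_mem (single_dot hzi m) ?_ _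
        refine hel _ z i hzi ?_
        rw [tv_coe (single_dot hzi m)]
        congr 1
        ext r s
        rw [vecMulVec_apply, Matrix.single_apply, Pi.single_apply, Pi.single_apply]
        by_cases hr : r = z <;> by_cases hs : s = i
        · simp [hr, hs]
        · simp [hr, hs, Ne.symm hs]
        · simp [hr, hs, Ne.symm hr]
        · simp [hr, hs, Ne.symm hr]
  rw [← hconj] at hmem
  have h3 := hnorm.conj_mem _ hmem a⁻¹
  have h4 : a⁻¹ * (a * tv x0 (m • φ) * a⁻¹) * a⁻¹⁻¹ = tv x0 (m • φ) := by group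
  rw [h4] at h3
  exact h3

end Pool.Agent.PR
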