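import Pool.Agent.helper5.PR.SpecX
import Pool.Agent.helper71.PR.S_SAT

set_option autoImplicit false

namespace Pool.Agent.PR

open Matrix

theorem X_CFG_comm {n m : ℕ} (i j k : Fin n) (hij : i ≠ j) (hik : i ≠ k) (hkj : k ≠ j) (a b : ZI m) :
    S_SAT_x i j hij (a * b) * S_SAT_x k j hkj b * S_SAT_x i k hik a =
      S_SAT_x i k hik a * S_SAT_x k j hkj b := by
  apply Subtype.ext
  change Matrix.transvection i j (a * b) * Matrix.transvection k j b * Matrix.transvection i k a =
    Matrix.transvection i k a * Matrix.transvection k j b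
  simp only [Matrix.transvection, mul_add, add_mul, mul_one, one_mul,
    Matrix.single_mul_single_same, Matrix.single_mul_single_of_ne _ _ _ _ hij.symm,
    Matrix.single_mul_single_of_ne _ _ _ _ hkj.symm, zero_mul]
  abel

theorem X_CFG_mul {n m : ℕ} (Δ : Subgroup (SLI n m)) (hn : 3 ≤ n) (a b : ZI m)
    (ha : ∀ (i j : Fin n) (h : i ≠ j), S_SAT_x i j h a ∈ Δ)
    (hb : ∀ (i j : Fin n) (h : i ≠ j), S_SAT_x i j h b ∈ Δ) :
    ∀ (i j : Fin n) (h : i ≠ j), S_SAT_x i j h (a * b) ∈ Δ := by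
  intro i j hij
  obtain ⟨k, hki, hkj⟩ : ∃ k : Fin n, k ≠ i ∧ k ≠ j := by
    have h1 : ((Finset.univ : Finset (Fin n)) \ {i, j}).Nonempty := by
      rw [← Finset.card_pos]
      have h2 := Finset.le_card_sdiff ({i, j} : Finset (Fin n)) (Finset.univ : Finset (Fin n))
      have h3 : ({i, j} : Finset (Fin n)).card ≤ 2 := Finset.card_le_two
      rw [Finset.card_univ, Fintype.card_fin] at h2
      omega
    obtain ⟨k, hk⟩ := h1
    rw [Finset.mem_sdiff, Finset.mem_insert, Finset.mem_singleton, not_or] at hk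
    exact ⟨k, hk.2.1, hk.2.2⟩
  have h := X_CFG_comm i j k hij hki.symm hkj a b
  have h2 : S_SAT_x i j hij (a * b) =
      S_SAT_x i k hki.symm a * S_SAT_x k j hkj b * (S_SAT_x i k hki.symm a)⁻¹ * (S_SAT_x k j hkj b)⁻¹ := by
    rw [← h]
    group
  rw [h2]
  exact Δ.mul_mem (Δ.mul_mem (Δ.mul_mem (ha i k _) (hb k j _)) (Δ.inv_mem (ha i k _)))
    (Δ.inv_mem (hb k j _))

theorem X_CFG (hSAT : S_SAT_stmt) (hZI : S_ZI_stmt) (hFG : K_FG_stmt) : X_CFG_stmt := by
  intro n hn m hm
  have hFGn := hFG n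
  rw [Group.fg_iff] at hFGn
  obtain ⟨T, hT, hTf⟩ := hFGn
  have hu : ((m : ℚ))⁻¹ ∈ ZI m := Algebra.subset_adjoin (Set.mem_singleton _)
  let u : ZI m := ⟨((m : ℚ))⁻¹, hu⟩
  let X : Set (SLI n m) := Set.range (fun p : {p : Fin n × Fin n // p.1 ≠ p.2} => S_SAT_x p.1.1 p.1.2 p.2 u)
  have hXf : X.Finite := Set.finite_range _
  let Δ : Subgroup (SLI n m) := Subgroup.closure (incI n m '' T ∪ X)
  have hinc : ∀ γ : SLZ n, incI n m γ ∈ Δ := by
    intro γ
    have h1 : (Subgroup.closure T).map (incI n m) ≤ Δ := by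
      rw [MonoidHom.map_closure]
      exact Subgroup.closure_mono Set.subset_union_left
    apply h1
    rw [hT]
    exact ⟨γ, Subgroup.mem_top γ, rfl⟩
  have hint : ∀ c : ℤ, ∀ (i j : Fin n) (h : i ≠ j), S_SAT_x i j h (algebraMap ℤ (ZI m) c) ∈ Δ := by
    intro c i j h
    have h1 := hinc ⟨Matrix.transvection i j c, Matrix.det_transvection_of_ne i j h c⟩
    have h2 : incI n m ⟨Matrix.transvection i j c, Matrix.det_transvection_of_ne i j h c⟩ =
        S_SAT_x i j h (algebraMap ℤ (ZI m) c) := by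
      apply Subtype.ext
      change (Matrix.transvection i j c).map (algebraMap ℤ (ZI m)) =
        Matrix.transvection i j (algebraMap ℤ (ZI m) c)
      rw [Matrix.transvection, Matrix.transvection, Matrix.map_add _ (map_add _),
        Matrix.map_one _ (map_zero _) (map_one _), Matrix.map_single]
    rw [← h2]
    exact h1
  have hpow : ∀ s : ℕ, ∀ (i j : Fin n) (h : i ≠ j), S_SAT_x i j h (u ^ s) ∈ Δ := by
    intro s
    induction s with
    | zero =>
      intro i j h
      have := hint 1 i j h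
      rw [map_one] at this
      rw [pow_zero]
      exact this
    | succ s ih =>
      rw [pow_succ]
      refine X_CFG_mul Δ hn _ _ ih ?_
      intro i j h
      exact Subgroup.subset_closure (Or.inr ⟨⟨(i, j), h⟩, rfl⟩)
  have hall : ∀ a : ZI m, ∀ (i j : Fin n) (h : i ≠ j), S_SAT_x i j h a ∈ Δ := by
    intro a
    obtain ⟨t, c, hc⟩ := S_SAT_repr hZI m hm a a.2
    have h1 : a = algebraMap ℤ (ZI m) c * u ^ t := by
      apply Subtype.ext
      have hm0 : (m : ℚ) ≠ 0 := by exact_mod_cast (by omega : m ≠ 0)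
      change (a : ℚ) = (algebraMap ℤ ℚ c) * ((m : ℚ)⁻¹) ^ t
      rw [eq_intCast, ← hc, inv_pow, mul_assoc, mul_inv_cancel₀ (pow_ne_zero t hm0), mul_one]
    rw [h1]
    exact X_CFG_mul Δ hn _ _ (hint c) (hpow t)
  have htop : Δ = ⊤ := by
    refine hSAT n hn m hm Δ ?_ ?_ 1 le_rfl (Nat.coprime_one_left m) ?_
    · have h1 : Δ.comap (incI n m) = ⊤ := by
        rw [eq_top_iff]
        intro γ _
        exact hinc γ
      rw [h1]
      infer_instance
    · intro k hk hkm γ
      refine ⟨incI n m γ, hinc γ, fun i j => ⟨0, ?_⟩⟩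
      have h2 : ratM (incI n m γ) i j = ((γ : Matrix (Fin n) (Fin n) ℤ) i j : ℚ) := rfl
      rw [h2, sub_self]
      simp
    · intro x i j a hij hx
      have h2 : x = S_SAT_x i j hij (((1 : ℕ) : ZI m) * a) := Subtype.ext hx
      rw [h2]
      exact hall _ i j hij
  rw [Group.fg_iff]
  exact ⟨_, htop, (hTf.image _).union hXf⟩

end Pool.Agent.PR
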