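import Pool.Agent.helper68.PRB.All
import Pool.Agent.helper93.PR.SpecN
import Pool.Agent.helper9.RA.All

/-!
# Block pr: (MP_70a088_an, rational maps): outputs PRN, PRD, hypothesis free (helper93, helper68)
-/

set_option autoImplicit false

namespace PR1

theorem PRT_m : PRT_stmt := PRG.PRT

theorem PRN_m : PRN_stmt := PRN PRT_m RAG.s_RA_OUT2 PRG.g_PR1_CLC

theorem PRD_m : PRD_stmt := PRD PRN_m RAG.s_P2A_DIA

end PR1
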