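import Pool.Agent.helper48.PR.SpecC
import Pool.Agent.helper93.PR.M_NQ

/-!
# Project pr (MP_a2a22c_al), part C, module FIN

A normal subgroup of `SL(n, ℤ)`, `n ≥ 3`, which contains all `el i j q` has finite index.
-/

set_option autoImplicit false

namespace Pool.Agent.PR

open Matrix

theorem FIN : FIN_stmt := by
  intro n hn q hq N hN h
  have h1 : Pool.Agent.H48SL.NQ (Fin n) (q : ℤ) ≤ N := by
    refine M_NQ n hn (q : ℤ) N ⟨hN, fun g i j hij hg => ?_⟩
    have h2 : g = el i j hij (q : ℤ) := by
      apply Subtype.ext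
      rw [el_coe]
      exact hg
    rw [h2]
    exact h i j hij
  refine ⟨h1, ?_⟩
  have h3 := Pool.Agent.H48SL.NQ_finiteIndex (ι := Fin n) q hq (by rw [Fintype.card_fin]; exact hn)
  exact Subgroup.finiteIndex_of_le h1

end Pool.Agent.PR
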