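import Pool.Agent.helper5.PR.SpecS

/-!
# Project pr: (MP_a2a22c_al), stage 2, module S-TOR

The kernel of a linear representation of dimension `n` with infinite image has bounded exponent.
-/

set_option autoImplicit false

namespace Pool.Agent.PR

open Matrix

/-- The reduction of an integer matrix modulo `m`. -/
private def S_TOR_red (n m : ℕ) : Matrix (Fin n) (Fin n) ℤ →+* Matrix (Fin n) (Fin n) (ZMod m) :=
  (Int.castRingHom (ZMod m)).mapMatrix

private theorem S_TOR_MC {n m : ℕ} (A B : Matrix (Fin n) (Fin n) ℤ) :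
    MC m A B ↔ S_TOR_red n m A = S_TOR_red n m B := by
  constructor
  · intro h
    ext i j
    change ((A i j : ℤ) : ZMod m) = ((B i j : ℤ) : ZMod m)
    rw [eq_comm, ZMod.intCast_eq_intCast_iff_dvd_sub]
    exact h i j
  · intro h i j
    have h1 := congrFun (congrFun h i) j
    change ((A i j : ℤ) : ZMod m) = ((B i j : ℤ) : ZMod m) at h1
    rw [eq_comm, ZMod.intCast_eq_intCast_iff_dvd_sub] at h1
    exact h1

private theorem S_TOR_ScM {n m : ℕ} (hn : 0 < n) (A : Matrix (Fin n) (Fin n) ℤ) :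
    ScM m A ↔ ∃ a : ZMod m, S_TOR_red n m A = a • (1 : Matrix (Fin n) (Fin n) (ZMod m)) := by
  constructor
  · intro h
    refine ⟨((A ⟨0, hn⟩ ⟨0, hn⟩ : ℤ) : ZMod m), ?_⟩
    ext i j
    rw [Matrix.smul_apply]
    change ((A i j : ℤ) : ZMod m) = _
    by_cases hij : i = j
    · subst hij
      rw [Matrix.one_apply_eq, smul_eq_mul, mul_one, eq_comm,
        ZMod.intCast_eq_intCast_iff_dvd_sub]
      exact h.2 i ⟨0, hn⟩
    · rw [Matrix.one_apply_ne hij, smul_zero, ZMod.intCast_zmod_eq_zero_iff_dvd]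
      exact h.1 i j hij
  · rintro ⟨a, ha⟩
    have h1 : ∀ i j, ((A i j : ℤ) : ZMod m) = a • (1 : Matrix (Fin n) (Fin n) (ZMod m)) i j :=
      fun i j => congrFun (congrFun ha i) j
    refine ⟨fun i j hij => ?_, fun i j => ?_⟩
    · have h2 := h1 i j
      rw [Matrix.one_apply_ne hij, smul_zero, ZMod.intCast_zmod_eq_zero_iff_dvd] at h2
      exact h2
    · have h2 : ((A j j : ℤ) : ZMod m) = ((A i i : ℤ) : ZMod m) := by
        rw [h1, h1, Matrix.one_apply_eq, Matrix.one_apply_eq]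
      rw [ZMod.intCast_eq_intCast_iff_dvd_sub] at h2
      exact h2

/-- A product of scalar matrices is scalar. -/
private theorem S_TOR_mul {n m : ℕ} (hn : 0 < n) (A B : Matrix (Fin n) (Fin n) ℤ) (hA : ScM m A)
    (hB : ScM m B) : ScM m (A * B) := by
  rw [S_TOR_ScM hn] at hA hB ⊢
  obtain ⟨a, ha⟩ := hA
  obtain ⟨b, hb⟩ := hB
  exact ⟨a * b, by rw [map_mul, ha, hb, smul_mul_smul_comm, mul_one]⟩

private theorem S_TOR_dvd {n m k : ℕ} (h : k ∣ m) (A : Matrix (Fin n) (Fin n) ℤ) (hA : ScM m A) :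
    ScM k A := by
  have h1 : ((k : ℕ) : ℤ) ∣ ((m : ℕ) : ℤ) := Int.natCast_dvd_natCast.mpr h
  exact ⟨fun i j hij => h1.trans (hA.1 i j hij), fun i j => h1.trans (hA.2 i j)⟩

/-- A scalar matrix of determinant one has order dividing `n`. -/
private theorem S_TOR_pow {n m : ℕ} (hn : 0 < n) (γ : SLZ n)
    (h : ScM m (γ : Matrix (Fin n) (Fin n) ℤ)) :
    S_TOR_red n m (γ : Matrix (Fin n) (Fin n) ℤ) ^ n = 1 := by
  rw [S_TOR_ScM hn] at h
  obtain ⟨a, ha⟩ := h
  have hdet : (S_TOR_red n m (γ : Matrix (Fin n) (Fin n) ℤ)).det = 1 := by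
    change ((Int.castRingHom (ZMod m)).mapMatrix (γ : Matrix (Fin n) (Fin n) ℤ)).det = 1
    rw [← RingHom.map_det, γ.2, map_one]
  rw [ha, Matrix.det_smul, Matrix.det_one, mul_one, Fintype.card_fin] at hdet
  rw [ha, smul_pow, hdet, one_pow, one_smul]

/-- Divisibility in the `p`-adic integers. -/
private theorem S_TOR_padic {n p : ℕ} [Fact p.Prime] (i : ℕ) (γ : SLZ n) (c : ℤ_[p])
    (h : MC (p ^ i) (1 : Matrix (Fin n) (Fin n) ℤ_[p]) (c • stdM ℤ_[p] γ)) :
    ScM (p ^ i) (γ : Matrix (Fin n) (Fin n) ℤ) := by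
  have hcast : ∀ x : ℤ, ((p ^ i : ℕ) : ℤ_[p]) ∣ ((x : ℤ) : ℤ_[p]) → ((p ^ i : ℕ) : ℤ) ∣ x := by
    intro x hx
    rw [Nat.cast_pow] at hx ⊢
    exact (PadicInt.pow_p_dvd_int_iff i x).mp hx
  have hent : ∀ j k, stdM ℤ_[p] γ j k = (((γ : Matrix (Fin n) (Fin n) ℤ) j k : ℤ) : ℤ_[p]) :=
    fun j k => rfl
  have hoff : ∀ j k, j ≠ k →
      ((p ^ i : ℕ) : ℤ_[p]) ∣ c * (((γ : Matrix (Fin n) (Fin n) ℤ) j k : ℤ) : ℤ_[p]) := by
    intro j k hjk
    have h1 := h j k
    rw [Matrix.one_apply_ne hjk, Matrix.smul_apply, hent, smul_eq_mul, zero_sub, dvd_neg] at h1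
    exact h1
  have hdiag : ∀ j,
      ((p ^ i : ℕ) : ℤ_[p]) ∣ 1 - c * (((γ : Matrix (Fin n) (Fin n) ℤ) j j : ℤ) : ℤ_[p]) := by
    intro j
    have h1 := h j j
    rw [Matrix.one_apply_eq, Matrix.smul_apply, hent, smul_eq_mul] at h1
    exact h1
  refine ⟨fun j k hjk => hcast _ ?_, fun j k => hcast _ ?_⟩
  · have e : (((γ : Matrix (Fin n) (Fin n) ℤ) j k : ℤ) : ℤ_[p]) =
        (((γ : Matrix (Fin n) (Fin n) ℤ) j k : ℤ) : ℤ_[p]) *
          (1 - c * (((γ : Matrix (Fin n) (Fin n) ℤ) j j : ℤ) : ℤ_[p])) +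
        (((γ : Matrix (Fin n) (Fin n) ℤ) j j : ℤ) : ℤ_[p]) *
          (c * (((γ : Matrix (Fin n) (Fin n) ℤ) j k : ℤ) : ℤ_[p])) := by ring
    rw [e]
    exact dvd_add (Dvd.dvd.mul_left (hdiag j) _) (Dvd.dvd.mul_left (hoff j k hjk) _)
  · have e : ((((γ : Matrix (Fin n) (Fin n) ℤ) j j -
        (γ : Matrix (Fin n) (Fin n) ℤ) k k : ℤ)) : ℤ_[p]) =
        (((γ : Matrix (Fin n) (Fin n) ℤ) j j : ℤ) : ℤ_[p]) *
          (1 - c * (((γ : Matrix (Fin n) (Fin n) ℤ) k k : ℤ) : ℤ_[p])) -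
        (((γ : Matrix (Fin n) (Fin n) ℤ) k k : ℤ) : ℤ_[p]) *
          (1 - c * (((γ : Matrix (Fin n) (Fin n) ℤ) j j : ℤ) : ℤ_[p])) := by
      push_cast
      ring
    rw [e]
    exact dvd_sub (Dvd.dvd.mul_left (hdiag k) _) (Dvd.dvd.mul_left (hdiag j) _)

/-- Elements of the kernel lie in the kernel of the `p`-adic components. -/
private theorem S_TOR_rel (hEXT : S_EXT_stmt) (hKER : S_KER_stmt) {n : ℕ} (hn : 3 ≤ n) {Λ : Type}
    [Group Λ] (hFG : Group.FG Λ) (hRF : RF Λ) {E : Type} [Field E] [CharZero E]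
    (ρ : Λ →* GL (Fin n) E) (hρ : (Set.range ρ).Infinite) (S : Sys (SLZ n) Λ) (p : ℕ)
    [Fact p.Prime] (hU : Unb hn S p) (l : Λ) (hl : ρ l = 1) : RelP S p l 1 := by
  obtain ⟨Λ', _, π, ρ', hFG', hQ', -, hπ, -, -, hρ', hrel⟩ := hEXT n hn Λ hFG hRF S p hU
  obtain ⟨x, rfl⟩ := hπ l
  let ι : GL (Fin n) ℤ_[p] →* GL (Fin n) ℚ_[p] :=
    Matrix.GeneralLinearGroup.map (PadicInt.Coe.ringHom (p := p))
  have hι : Function.Injective ι := by
    refine Units.map_injective ?_
    intro A B hAB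
    ext i j
    have h1 := congrFun (congrFun hAB i) j
    exact Subtype.coe_injective h1
  have hr1 : (Set.range (ρ.comp π)).Infinite := by
    have e : Set.range (ρ.comp π) = Set.range ρ := by
      rw [MonoidHom.coe_comp, hπ.range_comp]
    rw [e]
    exact hρ
  have hr2 : (Set.range (ι.comp ρ')).Infinite := by
    rw [MonoidHom.coe_comp, Set.range_comp]
    exact hρ'.image hι.injOn
  have h1 := hKER n hn Λ' hFG' hQ' E ℚ_[p] (ρ.comp π) (ι.comp ρ') hr1 hr2 x hl
  have h2 : ρ' x = 1 := by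
    apply hι
    rw [map_one]
    exact h1
  have h3 := hrel x
  rw [h2] at h3
  exact h3

theorem S_TOR (hSYS : S_SYS_stmt) (hALM : S_ALM_stmt) (hEXT : S_EXT_stmt) (hKER : S_KER_stmt)
    (hSAND : S_SAND_stmt) (hKFG : K_FG_stmt) : S_TOR_stmt := by
  classical
  intro n hn Λ _ hFG hQ hRF E _ _ ρ hρ
  have hn0 : 0 < n := by omega
  obtain ⟨S, -, -⟩ := hSYS (SLZ n) Λ (hKFG n) hQ Unit 1
  obtain ⟨N₀, hN₀, hUN⟩ := hALM n hn Λ hFG S n E ρ hρ
  -- bounds for the primes with bounded levels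
  have hb : ∀ q : ℕ, ∃ i : ℕ, ¬ Unb hn S q → ∀ M, ¬ q ^ i ∣ lev hn S M := by
    intro q
    by_cases h : Unb hn S q
    · exact ⟨0, fun h' => (h' h).elim⟩
    · have h1 := h
      unfold Unb at h1
      push Not at h1
      obtain ⟨i, hi⟩ := h1
      exact ⟨i, fun _ => hi⟩
  choose b hb using hb
  let D : ℕ := ∏ q ∈ N₀.primeFactors, q ^ b q
  have hD : D ≠ 0 := by
    refine Finset.prod_ne_zero_iff.mpr fun q hq => ?_
    exact pow_ne_zero _ (Nat.prime_of_mem_primeFactors hq).ne_zero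
  have : NeZero D := ⟨hD⟩
  let e₂ : ℕ := Nat.card (GL (Fin n) (ZMod D))
  have he₂ : e₂ ≠ 0 := Nat.card_pos.ne'
  refine ⟨n * e₂, Nat.one_le_iff_ne_zero.mpr (Nat.mul_ne_zero (by omega) he₂), fun l hl => ?_⟩
  -- the power is in all finite index normal subgroups
  have key : ∀ M : FiniteIndexNormalSubgroup Λ, l ^ (n * e₂) ∈ M.toSubgroup := by
    intro M
    obtain ⟨γ, hγ⟩ := S.surj M (l : Λ ⧸ M.toSubgroup)
    have : Finite (Λ ⧸ M.toSubgroup) := Subgroup.finite_quotient_of_finiteIndex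
    obtain ⟨hs1, hs2⟩ := hSAND n hn (Λ ⧸ M.toSubgroup) (S.g M)
    have hcong : MC (lev hn S M) ((γ ^ (n * e₂) : SLZ n) : Matrix (Fin n) (Fin n) ℤ) 1 := by
      intro i j
      have hpp : lev hn S M ∣ ((((γ ^ (n * e₂) : SLZ n) : Matrix (Fin n) (Fin n) ℤ) i j -
          (1 : Matrix (Fin n) (Fin n) ℤ) i j)).natAbs := by
        rw [Nat.dvd_iff_prime_pow_dvd_dvd]
        intro q k hq hqk
        have hfin : MC (q ^ k) ((γ ^ (n * e₂) : SLZ n) : Matrix (Fin n) (Fin n) ℤ) 1 := by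
          rw [S_TOR_MC, map_one]
          by_cases hU : Unb hn S q
          · have : Fact q.Prime := ⟨hq⟩
            have hrel := S_TOR_rel hEXT hKER hn hFG hRF ρ hρ S q hU l hl
            obtain ⟨γ', hγ', c, hc⟩ := hrel.2 k M
            have hsc := S_TOR_padic k γ' c hc
            have hker : S.g M (γ * γ'⁻¹) = 1 := by
              rw [map_mul, map_inv, hγ, hγ', mul_inv_cancel]
            have hsc2 := S_TOR_dvd hqk _ (hs2 _ hker)
            have hsc3 := S_TOR_mul hn0 _ _ hsc2 hsc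
            have e1 : ((γ * γ'⁻¹ : SLZ n) : Matrix (Fin n) (Fin n) ℤ) *
                (γ' : Matrix (Fin n) (Fin n) ℤ) = (γ : Matrix (Fin n) (Fin n) ℤ) := by
              rw [← Matrix.SpecialLinearGroup.coe_mul, inv_mul_cancel_right]
            rw [e1] at hsc3
            rw [Matrix.SpecialLinearGroup.coe_pow, map_pow, pow_mul, S_TOR_pow hn0 γ hsc3,
              one_pow]
          · -- bounded levels
            have hqN : q ∣ N₀ := by
              by_contra h
              exact hU (hUN q hq h)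
            have hk : k < b q := by
              by_contra h
              exact hb q hU M ((pow_dvd_pow q (not_lt.mp h)).trans hqk)
            have hqD : q ^ k ∣ D := by
              refine (pow_dvd_pow q hk.le).trans ?_
              exact Finset.dvd_prod_of_mem (fun q => q ^ b q)
                (Nat.mem_primeFactors.mpr ⟨hq, hqN, hN₀⟩)
            have h1 : MC D ((γ ^ (n * e₂) : SLZ n) : Matrix (Fin n) (Fin n) ℤ) 1 := by
              rw [S_TOR_MC, map_one]
              let θ : SLZ n →* GL (Fin n) (ZMod D) :=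
                (Matrix.SpecialLinearGroup.toGL).comp
                  (Matrix.SpecialLinearGroup.map (Int.castRingHom (ZMod D)))
              have h2 : θ γ ^ e₂ = 1 := pow_card_eq_one'
              have h3 : θ (γ ^ (n * e₂)) = 1 := by
                rw [map_pow, mul_comm, pow_mul, h2, one_pow]
              have h4 := congrArg (fun x : GL (Fin n) (ZMod D) =>
                (x : Matrix (Fin n) (Fin n) (ZMod D))) h3
              exact h4
            rw [← map_one (S_TOR_red n (q ^ k)), ← S_TOR_MC]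
            intro i j
            exact (Int.natCast_dvd_natCast.mpr hqD).trans (h1 i j)
        have h5 := hfin i j
        exact Int.natCast_dvd.mp h5
      exact Int.natCast_dvd.mpr hpp
    have h6 := hs1 _ hcong
    rw [map_pow, hγ] at h6
    have h7 : ((l ^ (n * e₂) : Λ) : Λ ⧸ M.toSubgroup) = 1 := h6
    exact (QuotientGroup.eq_one_iff _).mp h7
  by_contra hne
  obtain ⟨H, hH, hlH⟩ := hRF _ hne
  have : H.FiniteIndex := ⟨hH⟩
  exact hlH (H.normalCore_le (key (FiniteIndexNormalSubgroup.ofSubgroup H.normalCore)))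

end Pool.Agent.PR
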